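import Pool.Agent.Y232.ZI.Ind3
import Pool.Agent.Y17.N.Defs3

/-!
# The parity of the unweighted sums, `q = 3`, all split primes
-/

set_option autoImplicit false

namespace Pool.Agent.Y655.N3

open Finset
open Pool.Agent.Z700 (fac pr Yd lres xres vec be n0 Ln S_TREE)
open Pool.Agent.Y17.N
open Pool.Agent.Y232.ZI (Yd_empty)

/-- the sum over the subsets which contain `p0` -/
theorem half_sum {P : Finset ℕ} {p0 : ℕ} (hp0 : p0 ∈ P) (f : Finset ℕ → ℤ)
    (hf : ∀ D ⊆ P, f (P \ D) = f D) :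
    ∑ D ∈ P.powerset, f D = 2 * ∑ D ∈ P.powerset.filter (fun D => p0 ∈ D), f D := by
  classical
  rw [← sum_filter_add_sum_filter_not P.powerset (fun D => p0 ∈ D)]
  have : ∑ D ∈ P.powerset.filter (fun D => ¬ p0 ∈ D), f D =
      ∑ D ∈ P.powerset.filter (fun D => p0 ∈ D), f D := by
    refine Finset.sum_bij' (fun D _ => P \ D) (fun D _ => P \ D) ?_ ?_ ?_ ?_ ?_
    · intro D hD
      rw [mem_filter, mem_powerset] at hD ⊢
      exact ⟨sdiff_subset, mem_sdiff.2 ⟨hp0, hD.2⟩⟩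
    · intro D hD
      rw [mem_filter, mem_powerset] at hD ⊢
      exact ⟨sdiff_subset, fun h => (mem_sdiff.1 h).2 hD.2⟩
    · intro D hD
      rw [mem_filter, mem_powerset] at hD
      exact Finset.sdiff_sdiff_eq_self hD.1
    · intro D hD
      rw [mem_filter, mem_powerset] at hD
      exact Finset.sdiff_sdiff_eq_self hD.1
    · intro D hD
      rw [mem_filter, mem_powerset] at hD
      exact (hf D hD.1).symm
  rw [this]
  ring

theorem pow_split {P D : Finset ℕ} (h : D ⊆ P) : (2 : ℤ) ^ P.card = 2 ^ D.card * 2 ^ (P \ D).card := by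
  rw [← pow_add, card_sdiff_of_subset h]
  congr 1
  have := card_le_card h
  omega

/-- the recursion -/
theorem core {P : Finset ℕ} {p0 : ℕ} (hp0 : p0 ∈ P) {T G R h y : Finset ℕ → ℤ} {N : ℤ}
    (hb : ∀ D ⊆ P, T D * T (P \ D) - G D * G (P \ D) = 6 * R D)
    (hN : ∑ D ∈ P.powerset, R D = 2 ^ P.card * N)
    (hT : ∀ D ⊆ P, T D = 2 ^ D.card * h D)
    (hG : ∀ D ⊂ P, G D = 2 ^ D.card * y D) (hG0 : G ∅ = 1) :
    G P = 2 ^ P.card * (∑ D ∈ P.powerset.filter (fun D => p0 ∈ D), h D * h (P \ D) -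
      ∑ D ∈ (P.powerset.filter (fun D => p0 ∈ D)).erase P, y D * y (P \ D) - 3 * N) := by
  classical
  have h1 := half_sum hp0 (fun D => T D * T (P \ D) - G D * G (P \ D)) (by
    intro D hD
    rw [Finset.sdiff_sdiff_eq_self hD]
    ring)
  rw [sum_congr rfl (fun D hD => hb D (mem_powerset.1 hD)), ← mul_sum, hN,
    sum_sub_distrib] at h1
  have h2 : ∑ D ∈ P.powerset.filter (fun D => p0 ∈ D), T D * T (P \ D) =
      2 ^ P.card * ∑ D ∈ P.powerset.filter (fun D => p0 ∈ D), h D * h (P \ D) := by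
    rw [mul_sum]
    refine sum_congr rfl fun D hD => ?_
    rw [mem_filter, mem_powerset] at hD
    rw [hT D hD.1, hT _ sdiff_subset, pow_split hD.1]
    ring
  have hPmem : P ∈ P.powerset.filter (fun D => p0 ∈ D) := by
    rw [mem_filter, mem_powerset]
    exact ⟨Subset.refl P, hp0⟩
  have h3 : ∑ D ∈ P.powerset.filter (fun D => p0 ∈ D), G D * G (P \ D) =
      G P + 2 ^ P.card *
        ∑ D ∈ (P.powerset.filter (fun D => p0 ∈ D)).erase P, y D * y (P \ D) := by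
    rw [← add_sum_erase _ _ hPmem, mul_sum]
    congr 1
    · rw [sdiff_self]
      show G P * G ∅ = G P
      rw [hG0, mul_one]
    · refine sum_congr rfl fun D hD => ?_
      rw [mem_erase, mem_filter, mem_powerset] at hD
      obtain ⟨a1, a2, a3⟩ := hD
      have hD1 : D ⊂ P := Finset.ssubset_iff_subset_ne.2 ⟨a2, a1⟩
      have hD2 : P \ D ⊂ P := by
        refine Finset.ssubset_iff_subset_ne.2 ⟨sdiff_subset, ?_⟩
        intro h
        rw [← h] at hp0
        exact (mem_sdiff.1 hp0).2 a3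
      rw [hG D hD1, hG _ hD2, pow_split a2]
      ring
  rw [h2, h3] at h1
  linarith

theorem odd_congr {ι : Type*} (F : Finset ι) (f g : ι → ℤ) (h : ∀ i ∈ F, (2 : ℤ) ∣ f i - g i) :
    (2 : ℤ) ∣ ∑ i ∈ F, f i - ∑ i ∈ F, g i := by
  rw [← sum_sub_distrib]
  exact dvd_sum h

theorem dvd_of_odd {a b : ℤ} (h : Odd a ↔ Odd b) : (2 : ℤ) ∣ a - b := by
  rw [Int.odd_iff, Int.odd_iff] at h
  omega

theorem mul_par {a b c d : ℤ} (h1 : (2 : ℤ) ∣ a - b) (h2 : (2 : ℤ) ∣ c - d) :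
    (2 : ℤ) ∣ a * c - b * d := by
  obtain ⟨k, hk⟩ := h1
  obtain ⟨m, hm⟩ := h2
  exact ⟨k * c + b * m, by linear_combination c * hk + b * hm⟩

/-- the parity of the value given by the recursion -/
theorem par_core (hTree : S_TREE) {l : ℕ → ℕ → ℤ} {x e : ℕ → ℤ} (hl : ∀ i j, l i j = l j i)
    {P : Finset ℕ} {p0 : ℕ} (hp0 : p0 ∈ P) {h y : Finset ℕ → ℤ} {N : ℤ}
    (hh : ∀ D ⊆ P, (Odd (h D) ↔ Odd (Yd l e D)))
    (hy : ∀ D ⊂ P, (Odd (y D) ↔ Odd (Yd l (fun p => x p + e p) D)))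
    (hN : Odd N ↔ (Odd (∑ p ∈ P, x p) ∧ ∀ J ⊆ P, (∀ p ∈ P \ J, Even (∑ q ∈ J, l p q)) →
      (∀ p ∈ J, Even (∑ q ∈ P \ J, l p q)) → J = ∅ ∨ J = P)) (h0 : Yd l (fun p => x p + e p) ∅ = 1) :
    Odd (∑ D ∈ P.powerset.filter (fun D => p0 ∈ D), h D * h (P \ D) -
      ∑ D ∈ (P.powerset.filter (fun D => p0 ∈ D)).erase P, y D * y (P \ D) - 3 * N) ↔
      Odd (Yd l (fun p => x p + e p) P) := by
  classical
  have t1 := hTree l e hl P p0 hp0
  have t2 := hTree l (fun p => x p + e p) hl P p0 hp0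
  have hPmem : P ∈ P.powerset.filter (fun D => p0 ∈ D) := by
    rw [mem_filter, mem_powerset]
    exact ⟨Subset.refl P, hp0⟩
  have s1 : (2 : ℤ) ∣ ∑ D ∈ P.powerset.filter (fun D => p0 ∈ D), h D * h (P \ D) -
      ∑ D ∈ P.powerset.filter (fun D => p0 ∈ D), Yd l e D * Yd l e (P \ D) := by
    refine odd_congr _ _ _ fun D hD => ?_
    rw [mem_filter, mem_powerset] at hD
    exact mul_par (dvd_of_odd (hh D hD.1)) (dvd_of_odd (hh _ sdiff_subset))
  have s2 : (2 : ℤ) ∣ ∑ D ∈ (P.powerset.filter (fun D => p0 ∈ D)).erase P, y D * y (P \ D) -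
      ∑ D ∈ (P.powerset.filter (fun D => p0 ∈ D)).erase P,
        Yd l (fun p => x p + e p) D * Yd l (fun p => x p + e p) (P \ D) := by
    refine odd_congr _ _ _ fun D hD => ?_
    rw [mem_erase, mem_filter, mem_powerset] at hD
    obtain ⟨a1, a2, a3⟩ := hD
    have hD1 : D ⊂ P := Finset.ssubset_iff_subset_ne.2 ⟨a2, a1⟩
    have hD2 : P \ D ⊂ P := by
      refine Finset.ssubset_iff_subset_ne.2 ⟨sdiff_subset, ?_⟩
      intro h
      rw [← h] at hp0
      exact (mem_sdiff.1 hp0).2 a3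
    exact mul_par (dvd_of_odd (hy D hD1)) (dvd_of_odd (hy _ hD2))
  rw [← add_sum_erase _ _ hPmem, sdiff_self] at t2
  have e0 : Yd l (fun p => x p + e p) P * Yd l (fun p => x p + e p) (⊥ : Finset ℕ) =
      Yd l (fun p => x p + e p) P := by
    show Yd l (fun p => x p + e p) P * Yd l (fun p => x p + e p) ∅ = _
    rw [h0, mul_one]
  rw [e0, sum_add_distrib] at t2
  by_cases hK : ∀ J ⊆ P, (∀ p ∈ P \ J, Even (∑ q ∈ J, l p q)) →
      (∀ p ∈ J, Even (∑ q ∈ P \ J, l p q)) → J = ∅ ∨ J = P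
  · have t1' := t1.trans (and_iff_left hK)
    have t2' := t2.trans (and_iff_left hK)
    have hN' := hN.trans (and_iff_left hK)
    rw [Int.odd_iff] at *
    simp only [Int.odd_iff] at *
    omega
  · have t1' : ¬ Odd _ := fun h => hK (t1.1 h).2
    have t2' : ¬ Odd _ := fun h => hK (t2.1 h).2
    have hN' : ¬ Odd N := fun h => hK (hN.1 h).2
    rw [Int.odd_iff] at t1' t2' hN'
    simp only [Int.odd_iff]
    omega

/-! ### split primes -/

theorem pr_sqf (D : Finset ℕ) (h : ∀ p ∈ D, Sp p) : Squarefree (pr D) := by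
  induction D using Finset.induction_on with
  | empty => exact squarefree_one
  | insert p s hp ih =>
    have hpp : p.Prime := (h p (Finset.mem_insert_self p s)).1
    have e : pr (insert p s) = p * pr s := prod_insert hp
    rw [e, Nat.squarefree_mul]
    · exact ⟨hpp.squarefree, ih (fun q hq => h q (Finset.mem_insert_of_mem hq))⟩
    · unfold Pool.Agent.Z700.pr
      refine Nat.Coprime.prod_right fun q hq => ?_
      rw [Nat.coprime_primes hpp (h q (Finset.mem_insert_of_mem hq)).1]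
      rintro rfl
      exact hp hq

theorem pr_mod8 (D : Finset ℕ) (h : ∀ p ∈ D, Sp p) : pr D % 8 = 1 := by
  induction D using Finset.induction_on with
  | empty => rfl
  | insert p s hp ih =>
    have e : pr (insert p s) = p * pr s := prod_insert hp
    rw [e, Nat.mul_mod, (h p (Finset.mem_insert_self p s)).2.1,
      ih (fun q hq => h q (Finset.mem_insert_of_mem hq))]

theorem pr_not3 (D : Finset ℕ) (h : ∀ p ∈ D, Sp p) : ¬ 3 ∣ pr D := by
  intro h3
  unfold Pool.Agent.Z700.pr at h3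
  rw [Prime.dvd_finsetProd_iff Nat.prime_three.prime] at h3
  obtain ⟨p, hp, h3⟩ := h3
  have : p = 3 := ((Nat.prime_dvd_prime_iff_eq Nat.prime_three (h p hp).1).1 h3).symm
  have := (h p hp).2.1
  omega

theorem sq3pr (D : Finset ℕ) (h : ∀ p ∈ D, Sp p) : Squarefree (3 * pr D) := by
  rw [Nat.squarefree_mul]
  · exact ⟨Nat.prime_three.squarefree, pr_sqf D h⟩
  · rw [Nat.Prime.coprime_iff_not_dvd Nat.prime_three]
    exact pr_not3 D h

theorem sq7_sq {p : ℕ} (h : Sp p) : (p : ZMod 7) = Pool.Agent.Z700.sq7 p ^ 2 := by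
  have h1 : (p : ZMod 7) = ((p % 7 : ℕ) : ZMod 7) := (ZMod.natCast_mod p 7).symm
  rw [h1]
  unfold Pool.Agent.Z700.sq7
  rcases h.2.2 with h7 | h7 | h7 <;> rw [h7] <;> decide

theorem be_sq (D : Finset ℕ) (h : ∀ p ∈ D, Sp p) : be D ^ 2 = -((3 * pr D : ℕ) : ZMod 7) := by
  have h1 : (pr D : ZMod 7) = (∏ p ∈ D, Pool.Agent.Z700.sq7 p) ^ 2 := by
    unfold Pool.Agent.Z700.pr
    rw [Nat.cast_prod, ← prod_pow]
    exact prod_congr rfl fun p hp => sq7_sq (h p hp)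
  unfold Pool.Agent.Z700.be
  push_cast
  rw [h1]
  have h4 : (4 : ZMod 7) = -3 := by decide
  have : (2 * ∏ p ∈ D, Pool.Agent.Z700.sq7 p) ^ 2 = 4 * (∏ p ∈ D, Pool.Agent.Z700.sq7 p) ^ 2 := by
    ring
  rw [this, h4]
  ring

theorem sq7_ne (p : ℕ) : Pool.Agent.Z700.sq7 p ≠ 0 := by
  unfold Pool.Agent.Z700.sq7
  split_ifs <;> decide

theorem two_ne7 : (2 : ZMod 7) ≠ 0 := by decide

theorem be_ne (D : Finset ℕ) : be D ≠ 0 := by
  have : Fact (Nat.Prime 7) := ⟨by norm_num⟩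
  unfold Pool.Agent.Z700.be
  exact mul_ne_zero two_ne7 (prod_ne_zero_iff.mpr fun p _ => sq7_ne p)

theorem be_mul {P D : Finset ℕ} (h : D ⊆ P) : be D * be (P \ D) = 2 * be P := by
  unfold Pool.Agent.Z700.be
  have h1 : (∏ p ∈ P \ D, Pool.Agent.Z700.sq7 p) * ∏ p ∈ D, Pool.Agent.Z700.sq7 p =
      ∏ p ∈ P, Pool.Agent.Z700.sq7 p := prod_sdiff h
  rw [← h1]
  ring

theorem pr_mul {P D : Finset ℕ} (h : D ⊆ P) : pr D * pr (P \ D) = pr P := by
  unfold Pool.Agent.Z700.pr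
  rw [mul_comm]
  exact prod_sdiff h

theorem not_sq {P : Finset ℕ} (h : ∀ p ∈ P, Sp p) (hne : P.Nonempty) (b : ℤ) :
    b ^ 2 ≠ 9 * (pr P : ℤ) := by
  intro hb
  have h3 : (3 : ℤ) ∣ b := by
    have : (3 : ℤ) ∣ b ^ 2 := ⟨3 * pr P, by rw [hb]; ring⟩
    exact Int.prime_three.dvd_of_dvd_pow this
  obtain ⟨c, rfl⟩ := h3
  have hc : c ^ 2 = pr P := by linarith
  have hc2 : c.natAbs * c.natAbs = pr P := by
    have : ((c.natAbs * c.natAbs : ℕ) : ℤ) = pr P := by
      rw [← hc, Int.natCast_mul, Int.natAbs_mul_self' , sq]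
    exact_mod_cast this
  have h1 := pr_sqf P h c.natAbs ⟨1, by rw [mul_one]; exact hc2.symm⟩
  rw [Nat.isUnit_iff] at h1
  rw [h1] at hc2
  obtain ⟨p, hp⟩ := hne
  have hd : p ∣ pr P := dvd_prod_of_mem _ hp
  rw [← hc2] at hd
  exact (h p hp).1.one_lt.ne' (Nat.dvd_one.1 hd)

theorem g0_empty : g0 ((3 * pr ∅ : ℕ) : ℤ) (be ∅) = 1 := by
  have e1 : ((3 * pr ∅ : ℕ) : ℤ) = 3 := rfl
  have e2 : be ∅ = 2 := rfl
  rw [e1, e2]
  decide +kernel

theorem bq_be (P : Finset ℕ) : bq 3 P = be P := by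
  unfold bq cq Pool.Agent.Z700.be
  rw [if_pos rfl]

/-- the parity of the number of vectors on a line -/
theorem tpar (h8 : S_T8) (hR : S_RHQ) (P : Finset ℕ) (hP : ∀ p ∈ P, Sp p) :
    ∃ h : ℤ, t0 ((3 * pr P : ℕ) : ℤ) (be P) = 2 ^ P.card * h ∧ (Odd h ↔ Odd (Yd lres (eQ 3) P)) := by
  obtain ⟨h, h1, h2⟩ := hR 3 P ⟨Nat.prime_three, rfl, Or.inl rfl⟩ hP
  refine ⟨h, ?_, h2⟩
  have h3 := h8 ((3 * pr P : ℕ) : ℤ) (by have := pr_mod8 P hP; omega) (be P) (be_ne P) (by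
    rw [be_sq P hP, Int.cast_natCast])
  rw [h3] at h1
  have h4 : (8 : ℤ) * t0 ((3 * pr P : ℕ) : ℤ) (be P) = 8 * (2 ^ P.card * h) := by
    rw [h1]
    ring
  linarith

/-- **IND3S** -/
theorem t_IND3S (hB : S_BIL) (h8 : S_T8) (hR : S_RHQ) (hG : S_GEN3) (hF : S_FIXT) : S_IND3S := by
  classical
  have hTr := Pool.Agent.Z179.t_TREE
  have hT := tpar h8 hR
  intro P
  simp only [bq_be]
  induction P using Finset.strongInduction with
  | H P ih =>
    intro hP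
    rcases P.eq_empty_or_nonempty with rfl | hne
    · refine ⟨1, ?_, ?_⟩
      · rw [g0_empty]
        simp
      · rw [Yd_empty]
    · obtain ⟨p0, hp0⟩ := hne
      obtain ⟨N, hN, hNo⟩ := hG P hP ⟨p0, hp0⟩
      rw [bq_be] at hN
      have hK : Pool.Agent.Z700.KerT P ↔ _ := Pool.Agent.Y232.ZJ.ker_iff hP
      rw [hF P hP ⟨p0, hp0⟩, hK] at hNo
      obtain ⟨h, hh⟩ : ∃ h : Finset ℕ → ℤ, ∀ D ⊆ P, t0 ((3 * pr D : ℕ) : ℤ) (be D) =
          2 ^ D.card * h D ∧ (Odd (h D) ↔ Odd (Yd lres (eQ 3) D)) := by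
        refine ⟨fun D => if hD : D ⊆ P then Classical.choose (hT D fun p hp => hP p (hD hp)) else 0,
          fun D hD => ?_⟩
        simp only [dif_pos hD]
        exact Classical.choose_spec (hT D fun p hp => hP p (hD hp))
      obtain ⟨y, hy⟩ : ∃ y : Finset ℕ → ℤ, ∀ D ⊂ P, g0 ((3 * pr D : ℕ) : ℤ) (be D) =
          2 ^ D.card * y D ∧ (Odd (y D) ↔ Odd (Yd lres (fun p => xres p + eQ 3 p) D)) := by
        refine ⟨fun D => if hD : D ⊂ P then
          Classical.choose (ih D hD fun p hp => hP p (hD.1 hp)) else 0, fun D hD => ?_⟩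
        simp only [dif_pos hD]
        exact Classical.choose_spec (ih D hD fun p hp => hP p (hD.1 hp))
      have hb : ∀ D ⊆ P, t0 ((3 * pr D : ℕ) : ℤ) (be D) * t0 ((3 * pr (P \ D) : ℕ) : ℤ) (be (P \ D)) -
          g0 ((3 * pr D : ℕ) : ℤ) (be D) * g0 ((3 * pr (P \ D) : ℕ) : ℤ) (be (P \ D)) =
          6 * SB (3 * pr D) (3 * pr (P \ D)) (-(2 * be P)) 1 := by
        intro D hD
        have h1 : ∀ p ∈ D, Sp p := fun p hp => hP p (hD hp)
        have h2 : ∀ p ∈ P \ D, Sp p := fun p hp => hP p (mem_sdiff.1 hp).1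
        have m1 := pr_mod8 D h1
        have m2 := pr_mod8 (P \ D) h2
        have key := hB (3 * pr D) (3 * pr (P \ D)) (sq3pr D h1) (by omega) (by omega) (be D)
          (be (P \ D)) (be_ne D) (be_ne _) (be_sq D h1) (be_sq _ h2) 1 (Or.inl rfl) (by
            intro b _ _ hbb
            refine not_sq hP ⟨p0, hp0⟩ b ?_
            rw [hbb, ← pr_mul hD]
            push_cast
            ring)
        rw [one_mul, be_mul hD] at key
        exact key
      have hc := core hp0 (T := fun D => t0 ((3 * pr D : ℕ) : ℤ) (be D))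
        (G := fun D => g0 ((3 * pr D : ℕ) : ℤ) (be D))
        (R := fun D => SB (3 * pr D) (3 * pr (P \ D)) (-(2 * be P)) 1) (h := h) (y := y) (N := N)
        hb hN (fun D hD => (hh D hD).1) (fun D hD => (hy D hD).1) g0_empty
      refine ⟨_, hc, ?_⟩
      refine par_core hTr Pool.Agent.Y232.ZI.lres_symm hp0 (fun D hD => (hh D hD).2)
        (fun D hD => (hy D hD).2) ?_ (Yd_empty _ _)
      rw [hNo, Pool.Agent.Y232.ZI.xres_sum]
      refine and_congr ?_ Iff.rfl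
      rw [Int.odd_coe_nat]

end Pool.Agent.Y655.N3
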